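import Pool.Agent.Results.MP_231ef3_gt.PlankNotSetSelfTietze

/-!
# A compact Hausdorff space which is not set-self-Tietze

No compact Hausdorff space which fails to be hereditarily normal is set-self-Tietze, and there are
such spaces, for example the Tychonoff plank.
-/

set_option autoImplicit false

open Set Ordinal

namespace Pool.Agent.Results.MP_65e89e_gt.CompactHausdorffCounterexample

open Pool.Agent.R819.SST

open Pool.Agent.Results.MP_231ef3_gt.PlankNotSetSelfTietze

/-- **Not every compact Hausdorff space is set-self-Tietze.** There are a compact Hausdorff space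
`X`, a closed subset `A` of `X` and an upper semicontinuous `f : A → 2^X` without upper
semicontinuous extension to `X`. -/
theorem result : ∃ (X : Type 1) (_ : TopologicalSpace X), CompactSpace X ∧ T2Space X ∧
    ∃ A : Set X, IsClosed A ∧ ∃ f : A → Hyper X, USC f ∧
      ¬ ∃ F : X → Hyper X, USC F ∧ ∀ a : A, F a = f a := by
  have h : ¬ SetSelfTietze Plank := Pool.Agent.Results.MP_231ef3_gt.PlankNotSetSelfTietze.result
  have hc : ∀ o : Ordinal.{0}, CompactSpace (Iic o) := fun o => isCompact_iff_compactSpace.1 (by
    rw [← Set.Icc_bot]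
    exact isCompact_Icc)
  have hc1 : CompactSpace R1 := hc _
  have hc0 : CompactSpace R0 := hc _
  refine ⟨Plank, inferInstance, inferInstance, inferInstance, ?_⟩
  unfold SetSelfTietze at h
  push Not at h
  obtain ⟨A, hA, f, hf, h2⟩ := h
  refine ⟨A, hA, f, hf, ?_⟩
  rintro ⟨F, hF, hFf⟩
  obtain ⟨a, ha⟩ := h2 F hF
  exact ha (hFf a)

end Pool.Agent.Results.MP_65e89e_gt.CompactHausdorffCounterexample
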