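import Pool.Agent.R819.SST

/-!
# Hausdorff set-self-Tietze spaces are hereditarily normal

Let `X` be a Hausdorff set-self-Tietze space. Then any two separated sets `P`, `Q` of `X` have
disjoint neighbourhoods (`X` is completely normal, equivalently hereditarily normal). For the proof
let `c ≠ d`, let `A` be the union of the closures of `P` and `Q`, and let `f` be `{c}` outside the
closure of `Q`, `{d}` outside the closure of `P`, and `{c, d}` elsewhere. An upper semicontinuous
extension of `f` separates `P` and `Q`.
-/

set_option autoImplicit false

namespace Pool.Agent.Results.MP_65e89e_gt.CompletelyNormal

open Pool.Agent.R819.SST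

universe u

/-- **Every Hausdorff set-self-Tietze space is completely normal.** -/
theorem result : ∀ (X : Type u) [TopologicalSpace X] [T2Space X], SetSelfTietze X →
    CompletelyNormalSpace X := fun _ _ _ h => completelyNormal h

end Pool.Agent.Results.MP_65e89e_gt.CompletelyNormal
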